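import Pool.Agent.N661.BR.Fin3

/-!
# Pairs of directions in the local limits of eigenfunctions (MP_6b977f_mp)

The setting is that of the file `ErgodicLimits`; the definitions are in `Pool.Agent.N661.BR.Defs`.
Here `μ` is an arbitrary limit point of the local measures of a quantum ergodic sequence: loss of
mass in the limit and plane waves are allowed. Let `μ = ∫ κ_s dP(s)` be a decomposition of `μ` into
translation invariant ergodic laws, and let `m_s cov ν_s` be the covariance of `κ_s`: `m_s` is the
local mass, and the probability measure `ν_s` is the law of the direction of the momentum, at the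
scale of the wavelength. For the random wave `m_s = 1` and `ν_s` is the uniform measure.

The theorem says: (1) the fourth moments of almost every component are finite, and equal to
`m_s² (3 - (3/2) parallel ν_s)`; (2) the law of the difference modulo `π` of two independent
directions of law `ν_s`, averaged over `s` with the weight `m_s²`, is at most the uniform measure away
from the difference `0`. By quantum ergodicity the average of `m_s ν_s` is uniform if no mass is lost;
(2) says that the two directions are not positively correlated, except that they may coincide.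

Consequences of (2): for every fixed angle `γ` which is not a multiple of `π`, almost surely the
component contains no two plane waves which form the angle `γ`; and `∫ m_s² (1 - parallel ν_s) dP ≤ 1`,
so that `∫ m_s² dP ≤ 1` if there are no plane waves.

Proof idea. For weights `v` on the even integers with sum zero the local integrals of
`|∑ v_j |W_j|²|²`, `W_j` the derivatives of order `j` along the frame `∂x - i∂y`, converge to
`(2/π) ∫_0^π (∑ v_j cos(jx))² dx`: the possible defect of the fourth moments cancels. For an ergodic
component the expectation is `2 m_s² E (∑ v_j cos(j(α-β)))²`, `α` and `β` independent of law `ν_s`, even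
if it contains plane waves. Fatou's lemma gives an inequality for all even cosine polynomials which
vanish at `0`, and these approximate the indicator functions of the open subsets of `(0, π)`.

The parts of the proof are due to helpers 130, 136, 141, 163, 232, 273, 278, 344, 426, 507, 511, 661,
717, 868, 901, 916 and 953.
-/

set_option autoImplicit false
open MeasureTheory Filter Topology ProbabilityTheory
open scoped ContDiff ENNReal

namespace Pool.Agent.Results.MP_6b977f_mp.DirectionPairs

open Pool.Agent.W745.RW (lap)
open Pool.Agent.N661.BR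

/-- **Result.** Let `Ω` be a bounded nonempty open set and let `u n` be real solutions of
`Δu + λ_n u = 0` in `Ω`, `λ_n → ∞`, which are quantum ergodic in the unit cotangent bundle over `Ω`.
Let `μ` be a limit point of their local measures, and let `μ = ∫ κ_s dP(s)`, where almost every `κ_s`
is translation invariant and ergodic with covariance `m_s cov ν_s (w - w')`. Then
`E f(0)⁴ = m_s² (3 - (3/2) parallel ν_s) < ∞` for almost every component, and for every measurable set
`B ⊆ (0, π)` of angles the average over `s` of
`m_s² (ν_s × ν_s) {α - β ∈ B mod π}` is at most `|B| / π`. -/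
theorem result (Ω : Set ℂ) (hΩ : IsOpen Ω) (hb : Bornology.IsBounded Ω) (hne : Ω.Nonempty)
    (lam : ℕ → ℝ) (hpos : ∀ n, 0 < lam n) (hlam : Tendsto lam atTop atTop)
    (u : ℕ → ℂ → ℝ) (hu : ∀ n, ContDiffOn ℝ ∞ (u n) Ω)
    (heq : ∀ n, ∀ z ∈ Ω, lap (u n) z + lam n * u n z = 0) (hqe : IsQuantumErgodic Ω lam u)
    (χ : ℝ → ℝ) (hχ : IsCutoff χ)
    (μ : Measure MW) [IsProbabilityMeasure μ] (hμ : IsLocalLimit χ Ω lam u μ)
    {S : Type*} [MeasurableSpace S] (P : Measure S) [IsProbabilityMeasure P]
    (κ : Kernel S MW) [IsMarkovKernel κ] (hκ : P.bind κ = μ)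
    (herg : ∀ᵐ s ∂P, IsStationary (κ s) ∧ IsErgodic (κ s))
    (m : S → ℝ) (ν : Kernel S ℝ) [IsMarkovKernel ν]
    (hν : ∀ᵐ s ∂P, ∀ w w' : ℂ, ∫ f : MW, f w * f w' ∂(κ s) = m s * cov (ν s) (w - w')) :
    (∀ᵐ s ∂P, Integrable (fun f : MW => f 0 ^ 4) (κ s) ∧
      ∫ f : MW, f 0 ^ 4 ∂(κ s) = m s ^ 2 * (3 - 3 / 2 * parallel (ν s))) ∧
    ∀ B : Set ℝ, MeasurableSet B → B ⊆ Set.Ioo 0 Real.pi →
      ∫⁻ s, ENNReal.ofReal (m s ^ 2) *
          ((ν s).prod (ν s)) {p | ∃ k : ℤ, p.1 - p.2 + k * Real.pi ∈ B} ∂P ≤
        ENNReal.ofReal (1 / Real.pi) * volume B := by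
  obtain ⟨h1, h2, _⟩ := limit_all hΩ hb hne hpos hlam hu heq hqe hχ inferInstance hμ
  exact ⟨comp4 h1 h2 hκ m ν herg hν, fun B hB hB' => pairs' h1 h2 hκ m ν herg hν B hB hB'⟩

end Pool.Agent.Results.MP_6b977f_mp.DirectionPairs
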