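import Pool.Agent.N661.BR.Fin

/-!
# Infinitely divisible local limits of quantum ergodic eigenfunctions (MP_6b977f_mp)

The definitions are in `Pool.Agent.N661.BR.Defs`, see also the file `ErgodicLimits`. In particular
`IsGaussianLaw ρ` says that the random function with the law `ρ` on `MW` is a centred Gaussian field
(of any covariance), `IsInfinitelyDivisible ρ` that its finite dimensional distributions have
consistent `n`-th convolution roots for every `n ≥ 1`, and `IsRandomWave μ` that `μ` is the law
`μ_RMW` of the centred Gaussian field with the covariance `J_0 (|w - w'|)`.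

The theorem characterises the random wave among the possible local limits: it is the only limit
point, of variance one, of the local measures of a quantum ergodic sequence which is a mixture of
infinitely divisible ergodic laws (for instance Gaussian laws, or sums of shot noise fields) that
contain no plane waves. Centred Gaussian components need not be assumed stationary or ergodic.

Proof idea. By the argument of `ErgodicLimits` almost every component has the covariance and the
four point functions of the random wave. So every linear combination of values has, under almost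
every component, mean zero and vanishing fourth cumulant; for an infinitely divisible law the
fourth cumulant is the fourth moment of the Lévy measure, so that the law is Gaussian.

The parts of the proof are due to helpers 136, 163, 273, 278, 426, 507, 511, 661, 717, 868, 901 and
916.
-/

set_option autoImplicit false
open MeasureTheory Filter Topology ProbabilityTheory
open scoped ContDiff

namespace Pool.Agent.Results.MP_6b977f_mp.DivisibleLimits

open Pool.Agent.W745.RW (lap)
open Pool.Agent.N661.BR

/-- **Result.** Let `u n` be real solutions of `Δu + λ_n u = 0` on the bounded open set `Ω`,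
`λ_n → ∞`, which are quantum ergodic, and let `μ` be a limit point of their local measures, with
`∫ f(0)² dμ = 1`. Let `μ = ∫ κ_s dP(s)`, where almost every `κ_s` has the covariance
`m_s cov ν_s (w - w')` for a probability measure `ν_s` without atoms modulo `π`, and is either a
centred Gaussian law, or translation invariant, ergodic and infinitely divisible. Then `μ` is the
law `μ_RMW` of the random wave. -/
theorem result (Ω : Set ℂ) (hΩ : IsOpen Ω) (hb : Bornology.IsBounded Ω) (hne : Ω.Nonempty)
    (lam : ℕ → ℝ) (hpos : ∀ n, 0 < lam n) (hlam : Tendsto lam atTop atTop)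
    (u : ℕ → ℂ → ℝ) (hu : ∀ n, ContDiffOn ℝ ∞ (u n) Ω)
    (heq : ∀ n, ∀ z ∈ Ω, lap (u n) z + lam n * u n z = 0)
    (hqe : IsQuantumErgodic Ω lam u) (χ : ℝ → ℝ) (hχ : IsCutoff χ)
    (μ : Measure MW) [IsProbabilityMeasure μ] (hμ : IsLocalLimit χ Ω lam u μ)
    (hvar : ∫ f : MW, f 0 ^ 2 ∂μ = 1)
    {S : Type*} [MeasurableSpace S] (P : Measure S) [IsProbabilityMeasure P]
    (κ : Kernel S MW) [IsMarkovKernel κ] (hκ : P.bind κ = μ)
    (hdiv : ∀ᵐ s ∂P, (IsStationary (κ s) ∧ IsErgodic (κ s) ∧ IsInfinitelyDivisible (κ s)) ∨
      IsGaussianLaw (κ s))
    (m : S → ℝ) (ν : S → Measure ℝ)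
    (hν : ∀ᵐ s ∂P, IsProbabilityMeasure (ν s) ∧ parallel (ν s) = 0 ∧
      ∀ w w' : ℂ, ∫ f : MW, f w * f w' ∂(κ s) = m s * cov (ν s) (w - w')) :
    IsRandomWave μ := by
  have hQ := fun v hv l => limit_QV allParts hΩ hb hne hpos hlam hu heq hqe hχ inferInstance hμ
    v hv l
  exact divisible_case allParts hQ hvar hκ m ν hν hdiv

end Pool.Agent.Results.MP_6b977f_mp.DivisibleLimits
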