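import Pool.Agent.N661.BR.Fin4
import Pool.Agent.N40.BRSTAT
import Pool.Agent.N878.BRBOCH

/-!
# Ergodic components of the limits of local measures of eigenfunctions (MP_6b977f_mp)

The setting is that of the file `ErgodicLimits`; the definitions are in `Pool.Agent.N661.BR.Defs`.
The theorem concerns the limit points `μ` of the local measures, for a quantum ergodic sequence of
eigenfunctions. They are stationary. If `μ` is a countable mixture of stationary ergodic laws (for
instance if `μ` itself is ergodic), then all of these components are Gaussian to fourth order: they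
are centred, with finite fourth moments, vanishing three point functions, and the four point
functions of the Gaussian wave with the same covariance. The components which are infinitely divisible are Gaussian. In
contrast with `ErgodicLimits` nothing is assumed on plane waves, and mass may be lost in the limit.
If no mass is lost, then all components have the covariance `J_0 (|w - w'|)`.

Proof idea. The second moments of the finite linear combinations of values under `μ` are at most
those of the random wave by Fatou's lemma. Hence the spectral measures of the components (which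
exist by the theorem of Bochner) are dominated by a multiple of the uniform measure, so they have no
atoms, and the theory of `ErgodicLimits` applies.

The parts of the proof are due to helpers 40, 87, 130, 136, 141, 163, 232, 273, 278, 344, 426, 507,
511, 661, 717, 868, 878, 901, 916 and 953.
-/

set_option autoImplicit false
open MeasureTheory Filter Topology ProbabilityTheory
open scoped ContDiff ENNReal

namespace Pool.Agent.Results.MP_6b977f_mp.ErgodicLimitPoints

open Pool.Agent.W745.RW (lap)
open Pool.Agent.N661.BR

/-- **Result.** Let `Ω` be a bounded nonempty open set and let `u n` be real solutions of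
`Δu + λ_n u = 0` in `Ω`, `λ_n → ∞`, which are quantum ergodic in the unit cotangent bundle over `Ω`.
Let `μ` be a limit point of their local measures. Then `μ` is stationary. Let `μ = ∑ p n • ρ n` with
stationary ergodic laws `ρ n` (for `p n ≠ 0`). Then each of them is `Gau4`: it is centred, has finite
fourth moments, its three point functions vanish, and its four point functions are those of the
Gaussian wave with the same covariance.
If `ρ n` is infinitely divisible, it is Gaussian. If `∫ f(0)² dμ = 1`, then the covariance of each
`ρ n` is `J_0 (|w - w'|)`, and `μ` is the random wave if all `ρ n` are infinitely divisible. -/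
theorem result (Ω : Set ℂ) (hΩ : IsOpen Ω) (hb : Bornology.IsBounded Ω) (hne : Ω.Nonempty)
    (lam : ℕ → ℝ) (hpos : ∀ n, 0 < lam n) (hlam : Tendsto lam atTop atTop)
    (u : ℕ → ℂ → ℝ) (hu : ∀ n, ContDiffOn ℝ ∞ (u n) Ω)
    (heq : ∀ n, ∀ z ∈ Ω, lap (u n) z + lam n * u n z = 0) (hqe : IsQuantumErgodic Ω lam u)
    (χ : ℝ → ℝ) (hχ : IsCutoff χ)
    (μ : Measure MW) [IsProbabilityMeasure μ] (hμ : IsLocalLimit χ Ω lam u μ) :
    IsStationary μ ∧
    ∀ (p : ℕ → ℝ≥0∞) (ρ : ℕ → Measure MW), μ = Measure.sum (fun n => p n • ρ n) →
      (∀ n, p n ≠ 0 → IsProbabilityMeasure (ρ n) ∧ IsStationary (ρ n) ∧ IsErgodic (ρ n)) →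
      (∀ n, p n ≠ 0 → Gau4 (ρ n) ∧ (IsInfinitelyDivisible (ρ n) → IsGaussianLaw (ρ n)) ∧
        (∫ f : MW, f 0 ^ 2 ∂μ = 1 → ∀ w w' : ℂ, ∫ f : MW, f w * f w' ∂(ρ n) = J0 ‖w - w'‖)) ∧
      (∫ f : MW, f 0 ^ 2 ∂μ = 1 → (∀ n, p n ≠ 0 → IsInfinitelyDivisible (ρ n)) →
        IsRandomWave μ) := by
  obtain ⟨h1, h2, h3⟩ := limit_all hΩ hb hne hpos hlam hu heq hqe hχ inferInstance hμ
  obtain ⟨h, u', hS, hA⟩ := limit_apx allParts hΩ hb hne hpos hlam hu heq hqe hχ inferInstance hμ
  exact ⟨Pool.Agent.N40.BRSTAT.STAT Ω hΩ hb hne h u' hS μ inferInstance hA,
    fun p ρ hsum hρ => every_sum Pool.Agent.N878.BR.BOCH h1 h2 h3 p ρ hsum hρ⟩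

end Pool.Agent.Results.MP_6b977f_mp.ErgodicLimitPoints
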