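import Pool.Agent.N661.BR.Fin5

/-!
# Local limits of quantum ergodic eigenfunctions of planar domains (MP_6b977f_mp)

The plane is `ℂ`. The definitions are in `Pool.Agent.N661.BR.Defs`: `MW` is the space of the smooth
real functions `f` on the plane with `Δf + f = 0`, `IsLocalLimit χ Ω lam u μ` says that the law `μ`
on `MW` is a limit point of the local measures of the eigenfunctions `u n` on `Ω` (for the
convergence of all finite dimensional distributions), `cov ν w = ∫ cos (w · (cos α, sin α)) dν(α)`,
`parallel ν = 0` says that `ν` has no atoms modulo `π`, and `J0` is the Bessel function.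

Let `μ` be a limit point of variance one, and `μ = ∫ κ_s dP(s)` a decomposition of `μ` into
translation invariant ergodic laws. The covariance of `κ_s` is `m_s cov ν_s (w - w')`, where `m_s` is
the local mass and the probability measure `ν_s` is the law of the direction of the momentum, at the
scale of the wavelength. An atom of `ν_s` is a plane wave contained in the component `κ_s`.

The theorem says that, if almost every component contains no plane wave, then almost every component
has the covariance `J_0 (|w - w'|)` (so that the local mass and the law of the directions are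
constant), has finite fourth moments, and has the three and four point functions of the random
wave. Only quantum ergodicity is assumed of the sequence: there are no bounds on moments of order larger than
two of the eigenfunctions or of the components.

Proof idea. Let `W_k = (∂x - i∂y)^k f` (and similarly for `k < 0`). (1) For a quantum ergodic
sequence the local integrals of `|∑ v_j W_j W_{2l-j}|²` converge to their Gaussian values whenever
the sums of `v` over the even and over the odd indices vanish: the possible defect of the fourth
moments cancels. (2) By Fatou's lemma the expectations of these quantities under `μ` are at most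
their Gaussian values. (3) Hence the averages over `j < N` of `|W_{2j}|²`, and of `|W_{2j+1}|²`,
converge in `L²` of almost every component, up to `L²` functions; their limit is translation
invariant, hence constant, and so `f(0)² ∈ L²`. (4) A stationary ergodic wave with a finite fourth
moment and without plane waves has Gaussian four point functions (from the library of
MP_4fa179_mp). (5) For the quadratic expressions `W_0 W_{2l} - N⁻¹ ∑_{j<N} W_{2j} W_{2l-2j}` the
Gaussian expectations under `κ_s` tend to `m_s² (1 + |c_{2l}(ν_s)|²)` as `N → ∞` (Wiener), while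
the bound of (2) is `1` for `l ≠ 0` and `2` for `l = 0`. As `∫ m_s dP = 1`, this forces `m_s = 1`
and `c_{2l}(ν_s) = 0` for all `l ≠ 0`. (6) The three point function `E f(x) f(y) f(z)` is equal to
`E f(z) N⁻¹ ∑_{k<N} W_{3k}(x) W_{-3k}(y)`, as three unit vectors with sum zero form equal angles;
by (4) the second factor tends to zero in `L²`.

The parts of the proof are due to helpers 136, 163, 273, 278, 426, 507, 511, 661, 717, 868, 878, 901
and 916.
-/

set_option autoImplicit false
open MeasureTheory Filter Topology ProbabilityTheory
open scoped ContDiff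

namespace Pool.Agent.Results.MP_6b977f_mp.ErgodicLimits

open Pool.Agent.W745.RW (lap)
open Pool.Agent.N661.BR

/-- **Result.** Let `u n` be real solutions of `Δu + λ_n u = 0` on the bounded open set `Ω`,
`λ_n → ∞`, which are quantum ergodic, and let `μ` be a limit point of their local measures, with
`∫ f(0)² dμ = 1`. Let `μ = ∫ κ_s dP(s)`, where almost every `κ_s` is translation invariant and
ergodic, with covariance `m_s cov ν_s (w - w')` for a probability measure `ν_s` without atoms modulo
`π`. Then, for almost every `s`, `κ_s` is centred with covariance `J_0 (|w - w'|)`, its fourth moments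
are finite, its three point functions vanish, and its four point functions are those of the random
wave. -/
theorem result (Ω : Set ℂ) (hΩ : IsOpen Ω) (hb : Bornology.IsBounded Ω) (hne : Ω.Nonempty)
    (lam : ℕ → ℝ) (hpos : ∀ n, 0 < lam n) (hlam : Tendsto lam atTop atTop)
    (u : ℕ → ℂ → ℝ) (hu : ∀ n, ContDiffOn ℝ ∞ (u n) Ω)
    (heq : ∀ n, ∀ z ∈ Ω, lap (u n) z + lam n * u n z = 0)
    (hqe : IsQuantumErgodic Ω lam u) (χ : ℝ → ℝ) (hχ : IsCutoff χ)
    (μ : Measure MW) [IsProbabilityMeasure μ] (hμ : IsLocalLimit χ Ω lam u μ)
    (hvar : ∫ f : MW, f 0 ^ 2 ∂μ = 1)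
    {S : Type*} [MeasurableSpace S] (P : Measure S) [IsProbabilityMeasure P]
    (κ : Kernel S MW) [IsMarkovKernel κ] (hκ : P.bind κ = μ)
    (herg : ∀ᵐ s ∂P, IsStationary (κ s) ∧ IsErgodic (κ s))
    (m : S → ℝ) (ν : S → Measure ℝ)
    (hν : ∀ᵐ s ∂P, IsProbabilityMeasure (ν s) ∧ parallel (ν s) = 0 ∧
      ∀ w w' : ℂ, ∫ f : MW, f w * f w' ∂(κ s) = m s * cov (ν s) (w - w')) :
    ∀ᵐ s ∂P, (∀ w : ℂ, ∫ f : MW, f w ∂(κ s) = 0) ∧
      (∀ w w' : ℂ, ∫ f : MW, f w * f w' ∂(κ s) = J0 ‖w - w'‖) ∧
      (∀ w : ℂ, Integrable (fun f : MW => f w ^ 4) (κ s)) ∧
      (∀ a b c : ℂ, ∫ f : MW, f a * f b * f c ∂(κ s) = 0) ∧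
      ∀ a b c d : ℂ, ∫ f : MW, f a * f b * f c * f d ∂(κ s) =
        J0 ‖a - b‖ * J0 ‖c - d‖ + J0 ‖a - c‖ * J0 ‖b - d‖ + J0 ‖a - d‖ * J0 ‖b - c‖ := by
  have hQ := fun v hv l => limit_QV allParts hΩ hb hne hpos hlam hu heq hqe hχ inferInstance hμ
    v hv l
  filter_upwards [ergodic_case3 hQ hvar hκ m ν hν herg] with s hs
  exact ⟨hs.2.1, hs.1.two, hs.1.fin, hs.2.2, hs.1.four⟩

end Pool.Agent.Results.MP_6b977f_mp.ErgodicLimits
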